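import Mathlib
import Pool.Agent.Helper903.DHJ
import Pool.Agent.R3.CB7

/-!
Positivity of the mean of `1_A(a) 1_A(a + p n) 1_A(a + q n)` by the density Hales-Jewett theorem
(for MP_cc4361_co, Q1).
-/

set_option autoImplicit false

namespace Pool.Agent.D0H46.CX

open Pool.Agent.R3.CB

/-- finitely additive invariant mean -/
structure Mean (N : Type*) [AddCommGroup N] where
  m : (N → ℝ) → ℝ
  add : ∀ f g, Bdd f → Bdd g → m (fun x => f x + g x) = m f + m g
  smul : ∀ (c : ℝ) f, Bdd f → m (fun x => c * f x) = c * m f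
  mono : ∀ f g, Bdd f → Bdd g → (∀ x, f x ≤ g x) → m f ≤ m g
  const : ∀ c : ℝ, m (fun _ => c) = c
  shift : ∀ f, Bdd f → ∀ s, m (fun x => f (x + s)) = m f

/-- the mean of an `InvMean` -/
def ofInv {N : Type*} [AddCommGroup N] (M : InvMean N) : Mean N :=
  ⟨M.m, M.add, M.smul, M.mono, M.const, M.shift⟩

namespace Mean

variable {N : Type*} [AddCommGroup N] (Q : Mean N)

lemma sum {ι : Type*} (s : Finset ι) (f : ι → N → ℝ) (hf : ∀ i ∈ s, Bdd (f i)) :
    Q.m (fun x => ∑ i ∈ s, f i x) = ∑ i ∈ s, Q.m (f i) := by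
  classical
  induction s using Finset.induction_on with
  | empty => simpa using Q.const 0
  | insert a s ha ih =>
    simp only [Finset.sum_insert ha]
    rw [Q.add _ _ (hf a (Finset.mem_insert_self _ _))
      (Bdd.sum s (fun i hi => hf i (Finset.mem_insert_of_mem hi))),
      ih (fun i hi => hf i (Finset.mem_insert_of_mem hi))]

lemma nonneg {f : N → ℝ} (hf : Bdd f) (h : ∀ x, 0 ≤ f x) : 0 ≤ Q.m f := by
  rw [← Q.const 0]
  exact Q.mono _ _ (Bdd.const 0) hf h

lemma le_const {f : N → ℝ} (hf : Bdd f) {c : ℝ} (h : ∀ x, f x ≤ c) : Q.m f ≤ c := by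
  rw [← Q.const c]
  exact Q.mono _ _ hf (Bdd.const c) h

lemma const_le {f : N → ℝ} (hf : Bdd f) {c : ℝ} (h : ∀ x, c ≤ f x) : c ≤ Q.m f := by
  rw [← Q.const c]
  exact Q.mono _ _ (Bdd.const c) hf h

lemma abs_le' {f : N → ℝ} {C : ℝ} (h : ∀ x, |f x| ≤ C) : |Q.m f| ≤ C := by
  rw [abs_le]
  exact ⟨Q.const_le ⟨C, h⟩ (fun x => (abs_le.1 (h x)).1), Q.le_const ⟨C, h⟩ (fun x => (abs_le.1 (h x)).2)⟩

end Mean

section IM

variable {N : Type*} [AddCommGroup N] (Q : Mean N)

/-- iterated mean -/
def IM : (r : ℕ) → ((Fin r → N) → ℝ) → ℝ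
  | 0, F => F Fin.elim0
  | r + 1, F => Q.m (fun x => IM r (fun ν => F (Fin.cons x ν)))

lemma IM_abs (r : ℕ) : ∀ (F : (Fin r → N) → ℝ) (C : ℝ), (∀ ν, |F ν| ≤ C) → |IM Q r F| ≤ C := by
  induction r with
  | zero => intro F C h; exact h _
  | succ r ih => intro F C h; exact Q.abs_le' (fun x => ih _ C (fun ν => h _))

lemma IM_bdd (r : ℕ) (F : (Fin (r + 1) → N) → ℝ) (h : Bdd F) :
    Bdd (fun x : N => IM Q r (fun ν => F (Fin.cons x ν))) := by
  obtain ⟨C, hC⟩ := h
  exact ⟨C, fun x => IM_abs Q r _ C (fun ν => hC _)⟩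

lemma IM_const (r : ℕ) (c : ℝ) : IM Q r (fun _ => c) = c := by
  induction r with
  | zero => rfl
  | succ r ih =>
    show Q.m (fun x => IM Q r (fun ν => c)) = c
    rw [ih]
    exact Q.const c

lemma IM_add (r : ℕ) : ∀ (F F' : (Fin r → N) → ℝ), Bdd F → Bdd F' →
    IM Q r (fun ν => F ν + F' ν) = IM Q r F + IM Q r F' := by
  induction r with
  | zero => intro F F' _ _; rfl
  | succ r ih =>
    intro F F' hF hF'
    show Q.m (fun x => IM Q r (fun ν => F (Fin.cons x ν) + F' (Fin.cons x ν))) =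
      Q.m (fun x => IM Q r (fun ν => F (Fin.cons x ν))) + Q.m (fun x => IM Q r (fun ν => F' (Fin.cons x ν)))
    rw [← Q.add _ _ (IM_bdd Q r F hF) (IM_bdd Q r F' hF')]
    congr 1
    funext x
    exact ih _ _ (hF.comp _) (hF'.comp _)

lemma IM_mono (r : ℕ) : ∀ (F F' : (Fin r → N) → ℝ), Bdd F → Bdd F' → (∀ ν, F ν ≤ F' ν) →
    IM Q r F ≤ IM Q r F' := by
  induction r with
  | zero => intro F F' _ _ h; exact h _
  | succ r ih =>
    intro F F' hF hF' h
    exact Q.mono _ _ (IM_bdd Q r F hF) (IM_bdd Q r F' hF')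
      (fun x => ih _ _ (hF.comp _) (hF'.comp _) (fun ν => h _))

lemma IM_sum (r : ℕ) {ι : Type*} (s : Finset ι) (F : ι → (Fin r → N) → ℝ) (hF : ∀ i ∈ s, Bdd (F i)) :
    IM Q r (fun ν => ∑ i ∈ s, F i ν) = ∑ i ∈ s, IM Q r (F i) := by
  classical
  induction s using Finset.induction_on with
  | empty => simpa using IM_const Q r 0
  | insert a s ha ih =>
    simp only [Finset.sum_insert ha]
    rw [IM_add Q r _ _ (hF a (Finset.mem_insert_self _ _))
      (Bdd.sum s (fun i hi => hF i (Finset.mem_insert_of_mem hi))),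
      ih (fun i hi => hF i (Finset.mem_insert_of_mem hi))]

lemma IM_subset (C : N → ℝ) (hC : Bdd C) (r : ℕ) : ∀ (b : Fin r → Bool), (∃ i, b i = true) → ∀ s : N,
    IM Q r (fun ν => C (s + ∑ i, if b i then ν i else 0)) = Q.m C := by
  induction r with
  | zero => intro b ⟨i, _⟩; exact i.elim0
  | succ r ih =>
    intro b hb s
    have e1 : ∀ x : N, ∀ ν : Fin r → N,
        s + ∑ i, (if b i then (Fin.cons x ν : Fin (r + 1) → N) i else 0) =
        (s + if b 0 then x else 0) + ∑ i : Fin r, (if b i.succ then ν i else 0) := by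
      intro x ν
      rw [Fin.sum_univ_succ, Fin.cons_zero, add_assoc]
      simp only [Fin.cons_succ]
    show Q.m (fun x => IM Q r (fun ν => C (s + ∑ i, if b i then (Fin.cons x ν : Fin (r + 1) → N) i else 0))) = Q.m C
    simp only [e1]
    by_cases h : ∃ i : Fin r, b i.succ = true
    · have e2 : ∀ x : N, IM Q r (fun ν => C ((s + if b 0 then x else 0) +
          ∑ i : Fin r, (if b i.succ then ν i else 0))) = Q.m C :=
        fun x => ih (fun i => b i.succ) h (s + if b 0 then x else 0)
      simp only [e2]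
      exact Q.const _
    · have h0 : b 0 = true := by
        obtain ⟨i, hi⟩ := hb
        rcases Fin.eq_zero_or_eq_succ i with rfl | ⟨j, rfl⟩
        · exact hi
        · exact absurd ⟨j, hi⟩ h
      have e3 : ∀ ν : Fin r → N, (∑ i : Fin r, (if b i.succ then ν i else 0)) = 0 := by
        intro ν
        apply Finset.sum_eq_zero
        intro i _
        rw [if_neg (fun hi => h ⟨i, hi⟩)]
      simp only [e3, h0, if_true, add_zero]
      have e4 : ∀ x : N, IM Q r (fun _ => C (s + x)) = C (s + x) := fun x => IM_const Q r _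
      simp only [e4]
      have := Q.shift C hC s
      rw [← this]
      congr 1
      funext x
      rw [add_comm]

end IM

lemma ind_abs {α : Type*} (B : Set α) (x : α) : |ind B x| ≤ 1 := by
  rw [abs_of_nonneg (ind_nonneg _ _)]; exact ind_le_one _ _

/-- the correlation -/
noncomputable def corr {G N : Type*} [AddCommGroup G] [AddCommGroup N] (M : Mean G) (p q : N → G)
    (A : Set G) (n : N) : ℝ := M.m (fun a => ind A a * ind A (a + p n) * ind A (a + q n))

lemma tri_bdd {G : Type*} (A : Set G) (f g h : G → G) :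
    Bdd (fun a => ind A (f a) * ind A (g a) * ind A (h a)) :=
  (((ind_bdd A).comp f).mul ((ind_bdd A).comp g)).mul ((ind_bdd A).comp h)

lemma tri_abs {G : Type*} (A : Set G) (x y z : G) : |ind A x * ind A y * ind A z| ≤ 1 := by
  rw [abs_mul, abs_mul]
  exact mul_le_one₀ (mul_le_one₀ (ind_abs _ _) (abs_nonneg _) (ind_abs _ _)) (abs_nonneg _) (ind_abs _ _)

lemma corr_bdd {G N : Type*} [AddCommGroup G] [AddCommGroup N] (M : Mean G) (p q : N → G)
    (A : Set G) : Bdd (corr M p q A) :=
  ⟨1, fun _ => M.abs_le' (fun _ => tri_abs _ _ _ _)⟩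

lemma opt_sum {N : Type*} [AddCommGroup N] {r : ℕ} (e : Fin r → Option (Fin 3)) (ν : Fin r → N)
    (j k : Fin 3) (hk : k ≠ 0) :
    (∑ i, if (e i).getD j = k then ν i else 0) =
      (∑ i, if (e i).getD 0 = k then ν i else 0) +
        if j = k then (∑ i, if (e i).isNone then ν i else 0) else 0 := by
  have h1 : ∀ (o : Option (Fin 3)) (x : N), j = k → (if o.getD j = k then x else 0) =
      (if o.getD 0 = k then x else 0) + if o.isNone then x else 0 := by
    intro o x hj
    cases o with
    | none => simp [hj, hk.symm]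
    | some v => simp
  have h2 : ∀ (o : Option (Fin 3)) (x : N), j ≠ k → (if o.getD j = k then x else 0) =
      (if o.getD 0 = k then x else 0) := by
    intro o x hj
    cases o with
    | none => simp [hj, hk.symm]
    | some v => simp
  by_cases hj : j = k
  · rw [if_pos hj, ← Finset.sum_add_distrib]
    exact Finset.sum_congr rfl (fun i _ => h1 _ _ hj)
  · rw [if_neg hj, add_zero]
    exact Finset.sum_congr rfl (fun i _ => h2 _ _ hj)

/-- **positivity** -/
theorem corner_mean (δ : ℝ) (hδ : 0 < δ) : ∃ c : ℝ, 0 < c ∧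
    ∀ (G N : Type*) [AddCommGroup G] [AddCommGroup N] (M : Mean G) (Q : Mean N) (p q : N →+ G)
      (A : Set G), δ ≤ M.m (ind A) → c ≤ Q.m (corr M p q A) := by
  classical
  obtain ⟨r, hr⟩ := Pool.Agent.Helper903.DHJ.ldhj (Fin 3) (δ / 2) (by positivity)
  refine ⟨δ / 2 / 4 ^ r, by positivity, ?_⟩
  intro G N _ _ M Q p q A hA
  -- the family of lines
  let Ls : Finset (Fin r → Option (Fin 3)) := Finset.univ.filter (fun e => ∃ i, e i = none)
  have hLs : (Ls.card : ℝ) ≤ 4 ^ r := by
    have h1 : Ls.card ≤ Fintype.card (Fin r → Option (Fin 3)) := Finset.card_le_univ _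
    have h2 : Fintype.card (Fin r → Option (Fin 3)) = 4 ^ r := by
      rw [Fintype.card_fun, Fintype.card_fin, Fintype.card_option, Fintype.card_fin]
    rw [h2] at h1
    exact_mod_cast h1
  -- pointwise inequality in `ν`
  have key : ∀ ν : Fin r → N, δ / 2 ≤ ∑ e ∈ Ls,
      corr M p q A (0 + ∑ i, if (e i).isNone then ν i else 0) := by
    intro ν
    let P : (Fin r → Fin 3) → G := fun w =>
      p (∑ i, if w i = 1 then ν i else 0) + q (∑ i, if w i = 2 then ν i else 0)
    let ln : (Fin r → Option (Fin 3)) → Fin 3 → (Fin r → Fin 3) := fun e j i => (e i).getD j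
    have h1 : ∀ a : G, (∑ w : Fin r → Fin 3, ind A (a + P w)) / Fintype.card (Fin r → Fin 3) ≤
        δ / 2 + ∑ e ∈ Ls, ind A (a + P (ln e 0)) * ind A (a + P (ln e 1)) * ind A (a + P (ln e 2)) := by
      intro a
      have hpos : ∀ e ∈ Ls, 0 ≤ ind A (a + P (ln e 0)) * ind A (a + P (ln e 1)) * ind A (a + P (ln e 2)) :=
        fun e _ => mul_nonneg (mul_nonneg (ind_nonneg _ _) (ind_nonneg _ _)) (ind_nonneg _ _)
      set D : Set (Fin r → Fin 3) := {w | a + P w ∈ A} with hD
      have hdens : (∑ w : Fin r → Fin 3, ind A (a + P w)) / Fintype.card (Fin r → Fin 3) =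
          Pool.Agent.Helper903.DHJ.dens D := by
        unfold Pool.Agent.Helper903.DHJ.dens Pool.Agent.Helper903.DHJ.avg
        have hw' : ∀ w : Fin r → Fin 3, ind A (a + P w) = Pool.Agent.Helper903.DHJ.ind D w := by
          intro w
          by_cases hw : a + P w ∈ A
          · rw [ind_of_mem hw, Pool.Agent.Helper903.DHJ.ind_mem (show w ∈ D from hw)]
          · rw [ind_of_not_mem hw, Pool.Agent.Helper903.DHJ.ind_not_mem (show w ∉ D from hw)]
        rw [Finset.sum_congr rfl (fun w _ => hw' w)]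
      rw [hdens]
      by_cases hd : δ / 2 ≤ Pool.Agent.Helper903.DHJ.dens D
      · obtain ⟨L, hL⟩ := hr D hd
        have hmem : L.idxFun ∈ Ls := by
          simp only [Ls, Finset.mem_filter, Finset.mem_univ, true_and]
          exact L.proper
        have hval : ∀ j : Fin 3, a + P (ln L.idxFun j) ∈ A := by
          intro j
          have := hL j
          exact this
        have h2 : (1 : ℝ) ≤ ∑ e ∈ Ls, ind A (a + P (ln e 0)) * ind A (a + P (ln e 1)) * ind A (a + P (ln e 2)) := by
          refine le_trans ?_ (Finset.single_le_sum hpos hmem)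
          rw [ind_of_mem (hval 0), ind_of_mem (hval 1), ind_of_mem (hval 2)]
          norm_num
        have h3 : Pool.Agent.Helper903.DHJ.dens D ≤ 1 := Pool.Agent.Helper903.DHJ.dens_le_one D
        linarith
      · push Not at hd
        have := Finset.sum_nonneg hpos
        linarith
    -- take the mean over `a`
    have hb1 : ∀ w ∈ (Finset.univ : Finset (Fin r → Fin 3)), Bdd (fun a => ind A (a + P w)) :=
      fun w _ => (ind_bdd A).comp _
    have hb2 : ∀ e ∈ Ls, Bdd (fun a => ind A (a + P (ln e 0)) * ind A (a + P (ln e 1)) * ind A (a + P (ln e 2))) :=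
      fun e _ => tri_bdd A _ _ _
    have h2 := M.mono (fun a => (Fintype.card (Fin r → Fin 3) : ℝ)⁻¹ * ∑ w : Fin r → Fin 3, ind A (a + P w))
      (fun a => δ / 2 + ∑ e ∈ Ls, ind A (a + P (ln e 0)) * ind A (a + P (ln e 1)) * ind A (a + P (ln e 2)))
      ((Bdd.sum _ hb1).smul _) ((Bdd.const _).add (Bdd.sum _ hb2)) (fun a => by
        have := h1 a
        rw [div_eq_inv_mul] at this
        exact this)
    rw [M.smul _ _ (Bdd.sum _ hb1), M.sum _ _ hb1, M.add _ _ (Bdd.const _) (Bdd.sum _ hb2), M.const,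
      M.sum _ _ hb2] at h2
    have h3 : ∀ w ∈ (Finset.univ : Finset (Fin r → Fin 3)), M.m (fun a => ind A (a + P w)) = M.m (ind A) :=
      fun w _ => M.shift _ (ind_bdd A) _
    rw [Finset.sum_congr rfl h3, Finset.sum_const, Finset.card_univ, nsmul_eq_mul, ← mul_assoc,
      inv_mul_cancel₀ (by positivity), one_mul] at h2
    have h4 : ∀ e ∈ Ls, M.m (fun a => ind A (a + P (ln e 0)) * ind A (a + P (ln e 1)) * ind A (a + P (ln e 2))) =
        corr M p q A (0 + ∑ i, if (e i).isNone then ν i else 0) := by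
      intro e _
      have s1 : ∀ j : Fin 3, (∑ i, if ln e j i = 1 then ν i else 0) =
          (∑ i, if ln e 0 i = 1 then ν i else 0) + if j = 1 then (∑ i, if (e i).isNone then ν i else 0) else 0 :=
        fun j => opt_sum e ν j 1 (by decide)
      have s2 : ∀ j : Fin 3, (∑ i, if ln e j i = 2 then ν i else 0) =
          (∑ i, if ln e 0 i = 2 then ν i else 0) + if j = 2 then (∑ i, if (e i).isNone then ν i else 0) else 0 :=
        fun j => opt_sum e ν j 2 (by decide)
      set nD : N := ∑ i, if (e i).isNone then ν i else 0 with hnD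
      have p1 : P (ln e 1) = P (ln e 0) + p nD := by
        simp only [P]
        rw [s1 1, s2 1, if_pos rfl, if_neg (by decide), map_add, map_add, map_zero]
        abel
      have p2 : P (ln e 2) = P (ln e 0) + q nD := by
        simp only [P]
        rw [s1 2, s2 2, if_pos rfl, if_neg (by decide), map_add, map_add, map_zero]
        abel
      rw [zero_add]
      have hs := M.shift (fun a => ind A a * ind A (a + p nD) * ind A (a + q nD))
        (tri_bdd A (fun a => a) _ _) (P (ln e 0))
      unfold corr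
      rw [← hs]
      congr 1
      funext a
      rw [p1, p2, show a + (P (ln e 0) + p nD) = a + P (ln e 0) + p nD from (add_assoc _ _ _).symm,
        show a + (P (ln e 0) + q nD) = a + P (ln e 0) + q nD from (add_assoc _ _ _).symm]
    rw [Finset.sum_congr rfl h4] at h2
    linarith
  -- iterate the mean
  have hb : ∀ e ∈ Ls, Bdd (fun ν : Fin r → N => corr M p q A (0 + ∑ i, if (e i).isNone then ν i else 0)) :=
    fun e _ => (corr_bdd M p q A).comp _
  have h5 := IM_mono Q r (fun _ => δ / 2) _ (Bdd.const _) (Bdd.sum Ls hb) key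
  rw [IM_const, IM_sum Q r Ls _ hb] at h5
  have h6 : ∀ e ∈ Ls, IM Q r (fun ν : Fin r → N => corr M p q A (0 + ∑ i, if (e i).isNone then ν i else 0)) =
      Q.m (corr M p q A) := by
    intro e he
    refine IM_subset Q _ (corr_bdd M p q A) r (fun i => (e i).isNone) ?_ 0
    simp only [Ls, Finset.mem_filter, Finset.mem_univ, true_and] at he
    obtain ⟨i, hi⟩ := he
    exact ⟨i, by simp [hi]⟩
  rw [Finset.sum_congr rfl h6, Finset.sum_const, nsmul_eq_mul] at h5
  have h7 : 0 ≤ Q.m (corr M p q A) := Q.nonneg (corr_bdd M p q A) (fun n => M.nonneg (tri_bdd A (fun a => a) _ _)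
    (fun a => mul_nonneg (mul_nonneg (ind_nonneg _ _) (ind_nonneg _ _)) (ind_nonneg _ _)))
  rw [div_le_iff₀ (by positivity)]
  nlinarith

end Pool.Agent.D0H46.CX
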