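import Mathlib
import Pool.Agent.R3.CB7

/-!
The spectral step for two functions (for MP_cc4361_co, Q1), from the lemmas of helper3.
-/

set_option autoImplicit false

namespace Pool.Agent.D0H46.CX

open Pool.Agent.R3.CB

variable {G : Type*} [AddCommGroup G]

lemma prod_sum_aux (U : Finset G) (F : G × ℤ → ℝ) :
    ∑ z ∈ U ×ˢ ({0, 1} : Finset ℤ), F z = ∑ u ∈ U, (F (u, 0) + F (u, 1)) := by
  rw [Finset.sum_product]
  refine Finset.sum_congr rfl (fun u _ => ?_)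
  rw [Finset.sum_pair (by norm_num)]

/-- bilinear transfer inequality -/
theorem harm1b (U Y : Finset G) (g g' f : G → ℝ) (hg : ∀ u, u ∉ U → g u = 0)
    (hg' : ∀ u, u ∉ U → g' u = 0) (p : G → G) (t : G) (κ : ℝ)
    (hκ : ∀ χ : AddChar G Circle,
      ‖(1:ℂ) - ((χ t : Circle) : ℂ)‖ * ‖∑ y ∈ Y, (f y : ℂ) * ((χ (p y) : Circle) : ℂ)‖ ≤ κ) :
    ∑ y ∈ Y, f y * ∑ u ∈ U, g u * g' (u + p y) - ∑ y ∈ Y, f y * ∑ u ∈ U, g u * g' (u + p y - t)
      ≤ κ * (∑ u ∈ U, (g u) ^ 2 + ∑ u ∈ U, (g' u) ^ 2) := by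
  classical
  let h : G × ℤ → ℝ := fun z => if z.2 = 0 then g z.1 else if z.2 = 1 then g' z.1 else 0
  have hh : ∀ z, z ∉ U ×ˢ ({0, 1} : Finset ℤ) → h z = 0 := by
    intro z hz
    rw [Finset.mem_product] at hz
    simp only [h]
    by_cases h0 : z.2 = 0
    · rw [if_pos h0]
      refine hg _ (fun hu => hz ⟨hu, by simp [h0]⟩)
    · rw [if_neg h0]
      by_cases h1 : z.2 = 1
      · rw [if_pos h1]
        refine hg' _ (fun hu => hz ⟨hu, by simp [h1]⟩)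
      · rw [if_neg h1]
  have key := harm1 (G := G × ℤ) (U ×ˢ ({0, 1} : Finset ℤ)) (Y ×ˢ ({0} : Finset ℤ)) h (fun z => f z.1) hh
    (fun z => (p z.1, 1)) (t, 0) κ (by
      intro χ
      have e1 : ∀ x : G, ∀ n : ℤ, χ (x, n) = χ (x, 0) * χ (0, n) := by
        intro x n
        rw [← AddChar.map_add_eq_mul]
        congr 1
        simp
      have e2 := hκ (χ.compAddMonoidHom (AddMonoidHom.inl G ℤ))
      have e3 : ∀ x : G, (χ.compAddMonoidHom (AddMonoidHom.inl G ℤ)) x = χ (x, 0) := fun x => rfl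
      simp only [e3] at e2
      have e4 : ∑ y ∈ Y ×ˢ ({0} : Finset ℤ), ((f y.1 : ℝ) : ℂ) * ((χ (p y.1, 1) : Circle) : ℂ) =
          (∑ y ∈ Y, (f y : ℂ) * ((χ (p y, 0) : Circle) : ℂ)) * ((χ (0, 1) : Circle) : ℂ) := by
        rw [Finset.sum_product, Finset.sum_mul]
        refine Finset.sum_congr rfl (fun y _ => ?_)
        rw [Finset.sum_singleton, e1 (p y) 1, Circle.coe_mul]
        ring
      rw [e4, norm_mul, Circle.norm_coe, mul_one]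
      exact e2)
  have c1 : ∀ s : G, ∑ z ∈ U ×ˢ ({0, 1} : Finset ℤ), h z * h (z + (s, 1)) = ∑ u ∈ U, g u * g' (u + s) := by
    intro s
    rw [prod_sum_aux]
    refine Finset.sum_congr rfl (fun u _ => ?_)
    simp [h]
  have c2 : ∀ s : G, ∑ z ∈ U ×ˢ ({0, 1} : Finset ℤ), h z * h (z + (s, 1) - (t, 0)) =
      ∑ u ∈ U, g u * g' (u + s - t) := by
    intro s
    rw [prod_sum_aux]
    refine Finset.sum_congr rfl (fun u _ => ?_)
    simp [h]
  have c3 : ∑ z ∈ U ×ˢ ({0, 1} : Finset ℤ), (h z) ^ 2 = ∑ u ∈ U, (g u) ^ 2 + ∑ u ∈ U, (g' u) ^ 2 := by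
    rw [prod_sum_aux, ← Finset.sum_add_distrib]
    refine Finset.sum_congr rfl (fun u _ => ?_)
    simp [h]
  rw [Finset.sum_product, Finset.sum_product, c3] at key
  simp only [Finset.sum_singleton, c1, c2] at key
  exact key

/-- the harmonic step for two functions -/
theorem harm2b {w : G →₀ ℝ} (hw : IsWin w) (f : G → ℝ) (hf : ∀ y, |f y| ≤ w y) (φ : G →+ G)
    (U : Finset G) (g g' : G → ℝ) (hg : ∀ u, u ∉ U → g u = 0) (hg' : ∀ u, u ∉ U → g' u = 0)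
    (hg2 : ∑ u ∈ U, (g u) ^ 2 ≤ 1) (hg2' : ∑ u ∈ U, (g' u) ^ 2 ≤ 1)
    (κ : ℝ) (hκ : 0 < κ) (hκ1 : κ ≤ 1)
    (h0 : κ ≤ ∑ y ∈ w.support, f y * ∑ u ∈ U, g u * g' (u + φ y))
    (F : Finset G) (z : G → G) (hz : ∀ t ∈ F, φ (z t) = t)
    (hn : ∀ t ∈ F, Near w (z t) (κ ^ 3 / 2048))
    (hF : ∀ t ∈ F, ∑ y ∈ w.support, f y * ∑ u ∈ U, g u * g' (u + φ y - t) = 0) :
    ∃ T : Finset (AddChar G Circle), (T.card : ℝ) * κ ^ 2 ≤ 128 ∧
      ∀ t ∈ F, ∃ χ ∈ T, κ / 8 ≤ ‖((χ t : Circle) : ℂ) - 1‖ := by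
  classical
  obtain ⟨T, hT1, hT2⟩ := select hw f hf φ (κ / 8) (by positivity) (by linarith)
  refine ⟨T, by nlinarith, ?_⟩
  intro t ht
  -- find χ
  have hex : ∃ χ : AddChar G Circle, κ / 4 < ‖(1:ℂ) - ((χ t : Circle) : ℂ)‖ * ‖ac w f φ χ‖ := by
    by_contra hno
    push Not at hno
    have := harm1b U w.support g g' f hg hg' φ t (κ / 4) hno
    rw [hF t ht] at this
    have h3 : κ / 4 * (∑ u ∈ U, (g u) ^ 2 + ∑ u ∈ U, (g' u) ^ 2) ≤ κ / 4 * 2 := by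
      apply mul_le_mul_of_nonneg_left _ (by positivity)
      linarith
    linarith
  obtain ⟨χ, hχ⟩ := hex
  have hle2 : ‖(1:ℂ) - ((χ t : Circle) : ℂ)‖ ≤ 2 := by
    refine (norm_sub_le _ _).trans ?_
    rw [norm_one, Circle.norm_coe]; norm_num
  have hac1 : ‖ac w f φ χ‖ ≤ 1 := by
    unfold ac
    refine (norm_sum_le _ _).trans ?_
    have h := hw.2
    rw [E_eq] at h
    rw [← h]
    refine Finset.sum_le_sum (fun y _ => ?_)
    rw [norm_mul, Circle.norm_coe, mul_one, mul_one, Complex.norm_real, Real.norm_eq_abs]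
    exact hf y
  have ha : κ / 8 ≤ ‖ac w f φ χ‖ := by nlinarith [norm_nonneg (ac w f φ χ)]
  have hb : κ / 4 ≤ ‖(1:ℂ) - ((χ t : Circle) : ℂ)‖ := by
    nlinarith [norm_nonneg ((1:ℂ) - ((χ t : Circle) : ℂ))]
  obtain ⟨χ', hχ', hm⟩ := hT2 χ ha
  refine ⟨χ', hχ', ?_⟩
  have hnc := near_char φ (z t) _ (hn t ht) (χ - χ')
  rw [hz t ht] at hnc
  have hc : ‖(((χ - χ') t : Circle) : ℂ) - 1‖ ≤ κ / 8 := by
    by_contra hcon
    rw [not_le] at hcon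
    have hm' : κ ^ 2 / 128 < ‖mc w φ (χ - χ')‖ := by
      have : (κ / 8) ^ 2 / 2 = κ ^ 2 / 128 := by ring
      rw [← this]; exact hm
    have : κ ^ 2 / 128 * (κ / 8) < ‖mc w φ (χ - χ')‖ * ‖(((χ - χ') t : Circle) : ℂ) - 1‖ :=
      mul_lt_mul'' hm' hcon (by positivity) (by positivity)
    nlinarith
  have htri : ‖(1:ℂ) - ((χ t : Circle) : ℂ)‖ ≤ ‖(((χ - χ') t : Circle) : ℂ) - 1‖ + ‖((χ' t : Circle) : ℂ) - 1‖ := by
    have e : ((χ t : Circle) : ℂ) = (((χ - χ') t : Circle) : ℂ) * ((χ' t : Circle) : ℂ) := by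
      rw [← Circle.coe_mul, ← AddChar.add_apply, sub_add_cancel]
    have e2 : (1:ℂ) - ((χ t : Circle) : ℂ) =
        -((((χ - χ') t : Circle) : ℂ) - 1) * ((χ' t : Circle) : ℂ) - (((χ' t : Circle) : ℂ) - 1) := by
      rw [e]; ring
    rw [e2]
    refine (norm_sub_le _ _).trans ?_
    rw [norm_mul, norm_neg, Circle.norm_coe, mul_one]
  linarith

end Pool.Agent.D0H46.CX
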