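import Pool.Agent.D0H46.CX.A
import Pool.Agent.D0H46.CX.B

/-!
Windows and nested means (for MP_cc4361_co, Q1).
-/

set_option autoImplicit false
set_option linter.unusedVariables false
set_option linter.unusedSectionVars false

namespace Pool.Agent.D0H46.CX

open Pool.Agent.R3.CB

universe u

variable {G : Type u} [AddCommGroup G]

/-- windows supported on a subgroup -/
lemma sub_win (H : AddSubgroup G) (MH : InvMean H) (S : Finset G) (hS : ∀ s ∈ S, s ∈ H)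
    (Φ : Finset (G → ℝ)) (hΦ : ∀ f ∈ Φ, Bdd f) (ε : ℝ) (hε : 0 < ε) :
    ∃ w : G →₀ ℝ, IsWin w ∧ (∀ x ∈ w.support, x ∈ H) ∧ (∀ s ∈ S, Near w s ε) ∧
      ∀ f ∈ Φ, |E w f - MH.m (fun h : H => f h)| ≤ ε := by
  classical
  set S' : Finset H := S.attach.image (fun s => (⟨s.1, hS s.1 s.2⟩ : H)) with hS'
  set Φ' : Finset (H → ℝ) := Φ.image (fun (f : G → ℝ) (h : H) => f (h : G)) with hΦ'
  have hb : ∀ f ∈ Φ', Bdd f := by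
    intro f hf
    obtain ⟨f', hf', rfl⟩ := Finset.mem_image.1 hf
    exact (hΦ f' hf').comp _
  obtain ⟨w, hw, hwn, hwa⟩ := MH.approx S' Φ' ε hε hb
  refine ⟨w.mapDomain (fun h : H => (h : G)), ⟨nonneg_map hw.1 _, ?_⟩, ?_, ?_, ?_⟩
  · rw [E_map]; exact hw.2
  · intro x hx
    have := Finsupp.mapDomain_support hx
    obtain ⟨h, _, rfl⟩ := Finset.mem_image.1 this
    exact h.2
  · intro s hs f hf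
    have h1 := hwn ⟨s, hS s hs⟩ (Finset.mem_image.2 ⟨⟨s, hs⟩, Finset.mem_attach _ _, rfl⟩)
      (fun h : H => f h) (fun h => hf _)
    rw [E_map, E_map]
    exact h1
  · intro f hf
    have h1 := hwa _ (Finset.mem_image_of_mem (fun (f : G → ℝ) (h : H) => f (h : G)) hf)
    rw [E_map]
    exact h1

/-- exchange of a mean and a window -/
lemma mean_win (M : Mean G) {X : Type*} [AddCommGroup X] (w : X →₀ ℝ) (h : X → G → ℝ) (hh : ∀ x, Bdd (h x)) :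
    M.m (fun a => E w (fun x => h x a)) = E w (fun x => M.m (h x)) := by
  simp only [E_eq]
  rw [M.sum _ _ (fun x _ => (hh x).smul _)]
  exact Finset.sum_congr rfl (fun x _ => M.smul _ _ (hh x))

lemma win_bdd {X : Type*} [AddCommGroup X] {w : X →₀ ℝ} (hw : IsWin w) {α : Type*} (h : X → α → ℝ) (C : ℝ)
    (hh : ∀ x a, |h x a| ≤ C) : ∀ a, |E w (fun x => h x a)| ≤ C := fun a => E_le_one hw (fun x => hh x a)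

section Param

variable (φ₁ φ₂ φ₃ : G →+ G)

/-- the group of the pairs `(u, v)` with `φ₂ u + φ₃ v = 0` -/
def NN : AddSubgroup (G × G) :=
  (φ₂.comp (AddMonoidHom.fst G G) + φ₃.comp (AddMonoidHom.snd G G)).ker

lemma mem_NN {u v : G} : (u, v) ∈ NN φ₂ φ₃ ↔ φ₂ u + φ₃ v = 0 := by
  unfold NN
  rw [AddMonoidHom.mem_ker]
  simp

open Classical in
/-- extension by zero -/
noncomputable def ext (h : NN φ₂ φ₃ → ℝ) (z : G × G) : ℝ := if hz : z ∈ NN φ₂ φ₃ then h ⟨z, hz⟩ else 0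

lemma ext_mem (h : NN φ₂ φ₃ → ℝ) {z : G × G} (hz : z ∈ NN φ₂ φ₃) : ext φ₂ φ₃ h z = h ⟨z, hz⟩ := by
  unfold ext
  rw [dif_pos hz]

lemma ext_abs {h : NN φ₂ φ₃ → ℝ} {C : ℝ} (hC : ∀ n, |h n| ≤ C) (z : G × G) : |ext φ₂ φ₃ h z| ≤ |C| := by
  unfold ext
  split_ifs with hz
  · exact (hC _).trans (le_abs_self C)
  · rw [abs_zero]; exact abs_nonneg _

variable (σ₂ σ₃ : G → G)

/-- the parametrisation of `NN` -/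
def pt (x ℓ k₂ k₃ : G) : G × G := (σ₂ ℓ + k₂ - x, σ₃ (-φ₁ x - ℓ) + k₃ - x)

/-- the subgroup `L` -/
def LL : AddSubgroup G := φ₂.range ⊓ φ₃.range

variable {φ₁ φ₂ φ₃ σ₂ σ₃}

lemma pt_mem (hsum : ∀ x, φ₁ x + φ₂ x + φ₃ x = 0) (h₂ : ∀ ℓ ∈ φ₂.range, φ₂ (σ₂ ℓ) = ℓ)
    (h₃ : ∀ ℓ ∈ φ₃.range, φ₃ (σ₃ ℓ) = ℓ) {x : G} (hx : φ₁ x ∈ LL φ₂ φ₃) {ℓ k₂ k₃ : G}
    (hℓ : ℓ ∈ LL φ₂ φ₃) (hk₂ : k₂ ∈ φ₂.ker) (hk₃ : k₃ ∈ φ₃.ker) :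
    pt φ₁ σ₂ σ₃ x ℓ k₂ k₃ ∈ NN φ₂ φ₃ := by
  unfold pt
  rw [mem_NN]
  have e2 := h₂ ℓ hℓ.1
  have e3 := h₃ (-φ₁ x - ℓ) (sub_mem (neg_mem hx.2) hℓ.2)
  rw [AddMonoidHom.mem_ker] at hk₂ hk₃
  rw [map_sub, map_add, e2, hk₂, map_sub, map_add, e3, hk₃]
  have := hsum x
  have e4 : ℓ + 0 - φ₂ x + (-φ₁ x - ℓ + 0 - φ₃ x) = -(φ₁ x + φ₂ x + φ₃ x) := by abel
  rw [e4, this, neg_zero]

lemma nest_bdd {X Y Z : Type*} [AddCommGroup Z] (M : Mean Z)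
    (F : X → Y → Z → ℝ) {C : ℝ} (hF : ∀ x y z, |F x y z| ≤ C) (x : X) (y : Y) : |M.m (F x y)| ≤ C :=
  M.abs_le' (fun z => hF x y z)

/-- the mean on `NN` -/
noncomputable def QQ (hsum : ∀ x, φ₁ x + φ₂ x + φ₃ x = 0) (h₂ : ∀ ℓ ∈ φ₂.range, φ₂ (σ₂ ℓ) = ℓ)
    (h₃ : ∀ ℓ ∈ φ₃.range, φ₃ (σ₃ ℓ) = ℓ) {x : G} (hx : φ₁ x ∈ LL φ₂ φ₃)
    (ML : Mean (LL φ₂ φ₃)) (M₂ : Mean φ₂.ker) (M₃ : Mean φ₃.ker) : Mean (NN φ₂ φ₃) where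
  m h := ML.m (fun ℓ => M₂.m (fun k₂ => M₃.m (fun k₃ => ext φ₂ φ₃ h (pt φ₁ σ₂ σ₃ x ℓ k₂ k₃))))
  add := by
    rintro f g ⟨C, hC⟩ ⟨D, hD⟩
    have b1 : ∀ z, |ext φ₂ φ₃ f z| ≤ |C| := ext_abs φ₂ φ₃ hC
    have b2 : ∀ z, |ext φ₂ φ₃ g z| ≤ |D| := ext_abs φ₂ φ₃ hD
    have e : ∀ z, ext φ₂ φ₃ (fun n => f n + g n) z = ext φ₂ φ₃ f z + ext φ₂ φ₃ g z := by
      intro z
      unfold ext
      split_ifs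
      · rfl
      · ring
    simp only [e]
    rw [← ML.add _ _ ⟨|C|, fun ℓ => M₂.abs_le' (fun k₂ => M₃.abs_le' (fun k₃ => b1 _))⟩
      ⟨|D|, fun ℓ => M₂.abs_le' (fun k₂ => M₃.abs_le' (fun k₃ => b2 _))⟩]
    congr 1
    funext ℓ
    rw [← M₂.add _ _ ⟨|C|, fun k₂ => M₃.abs_le' (fun k₃ => b1 _)⟩ ⟨|D|, fun k₂ => M₃.abs_le' (fun k₃ => b2 _)⟩]
    congr 1
    funext k₂
    rw [← M₃.add _ _ ⟨|C|, fun k₃ => b1 _⟩ ⟨|D|, fun k₃ => b2 _⟩]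
  smul := by
    rintro c f ⟨C, hC⟩
    have b1 : ∀ z, |ext φ₂ φ₃ f z| ≤ |C| := ext_abs φ₂ φ₃ hC
    have e : ∀ z, ext φ₂ φ₃ (fun n => c * f n) z = c * ext φ₂ φ₃ f z := by
      intro z
      unfold ext
      split_ifs
      · rfl
      · ring
    simp only [e]
    rw [← ML.smul _ _ ⟨|C|, fun ℓ => M₂.abs_le' (fun k₂ => M₃.abs_le' (fun k₃ => b1 _))⟩]
    congr 1
    funext ℓ
    rw [← M₂.smul _ _ ⟨|C|, fun k₂ => M₃.abs_le' (fun k₃ => b1 _)⟩]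
    congr 1
    funext k₂
    rw [← M₃.smul _ _ ⟨|C|, fun k₃ => b1 _⟩]
  mono := by
    rintro f g ⟨C, hC⟩ ⟨D, hD⟩ h
    have b1 : ∀ z, |ext φ₂ φ₃ f z| ≤ |C| := ext_abs φ₂ φ₃ hC
    have b2 : ∀ z, |ext φ₂ φ₃ g z| ≤ |D| := ext_abs φ₂ φ₃ hD
    have e : ∀ z, ext φ₂ φ₃ f z ≤ ext φ₂ φ₃ g z := by
      intro z
      unfold ext
      split_ifs
      · exact h _
      · exact le_rfl
    refine ML.mono _ _ ⟨|C|, fun ℓ => M₂.abs_le' (fun k₂ => M₃.abs_le' (fun k₃ => b1 _))⟩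
      ⟨|D|, fun ℓ => M₂.abs_le' (fun k₂ => M₃.abs_le' (fun k₃ => b2 _))⟩ (fun ℓ => ?_)
    refine M₂.mono _ _ ⟨|C|, fun k₂ => M₃.abs_le' (fun k₃ => b1 _)⟩
      ⟨|D|, fun k₂ => M₃.abs_le' (fun k₃ => b2 _)⟩ (fun k₂ => ?_)
    exact M₃.mono _ _ ⟨|C|, fun k₃ => b1 _⟩ ⟨|D|, fun k₃ => b2 _⟩ (fun k₃ => e _)
  const := by
    intro c
    have e : ∀ (ℓ : LL φ₂ φ₃) (k₂ : φ₂.ker) (k₃ : φ₃.ker),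
        ext φ₂ φ₃ (fun _ => c) (pt φ₁ σ₂ σ₃ x ℓ k₂ k₃) = c := fun ℓ k₂ k₃ =>
      ext_mem φ₂ φ₃ _ (pt_mem hsum h₂ h₃ hx ℓ.2 k₂.2 k₃.2)
    simp only [e, M₃.const, M₂.const, ML.const]
  shift := by
    rintro f ⟨C, hC⟩ s
    have b1 : ∀ z, |ext φ₂ φ₃ f z| ≤ |C| := ext_abs φ₂ φ₃ hC
    obtain ⟨⟨u, v⟩, hs⟩ := s
    have hs' := (mem_NN φ₂ φ₃).1 hs
    have hv : φ₃ v = -φ₂ u := by rw [eq_neg_iff_add_eq_zero, add_comm]; exact hs'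
    have hu : φ₂ u ∈ LL φ₂ φ₃ := ⟨⟨u, rfl⟩, ⟨-v, by rw [map_neg, hv, neg_neg]⟩⟩
    have hc2 : ∀ ℓ : LL φ₂ φ₃, σ₂ ℓ + u - σ₂ (ℓ + φ₂ u) ∈ φ₂.ker := by
      intro ℓ
      rw [AddMonoidHom.mem_ker, map_sub, map_add, h₂ _ ℓ.2.1, h₂ _ (add_mem ℓ.2.1 hu.1), sub_self]
    have hc3 : ∀ ℓ : LL φ₂ φ₃, σ₃ (-φ₁ x - ℓ) + v - σ₃ (-φ₁ x - (ℓ + φ₂ u)) ∈ φ₃.ker := by
      intro ℓ
      rw [AddMonoidHom.mem_ker, map_sub, map_add, h₃ _ (sub_mem (neg_mem hx.2) ℓ.2.2),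
        h₃ _ (sub_mem (neg_mem hx.2) (add_mem ℓ.2.2 hu.2)), hv]
      abel
    have e : ∀ (ℓ : LL φ₂ φ₃) (k₂ : φ₂.ker) (k₃ : φ₃.ker),
        ext φ₂ φ₃ (fun n => f (n + ⟨(u, v), hs⟩)) (pt φ₁ σ₂ σ₃ x ℓ k₂ k₃) =
        ext φ₂ φ₃ f (pt φ₁ σ₂ σ₃ x ((ℓ + ⟨φ₂ u, hu⟩ : LL φ₂ φ₃) : G) ((k₂ + ⟨_, hc2 ℓ⟩ : φ₂.ker) : G)
          ((k₃ + ⟨_, hc3 ℓ⟩ : φ₃.ker) : G)) := by
      intro ℓ k₂ k₃
      rw [ext_mem φ₂ φ₃ _ (pt_mem hsum h₂ h₃ hx ℓ.2 k₂.2 k₃.2),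
        ext_mem φ₂ φ₃ _ (pt_mem hsum h₂ h₃ hx (ℓ + ⟨φ₂ u, hu⟩ : LL φ₂ φ₃).2 (k₂ + ⟨_, hc2 ℓ⟩ : φ₂.ker).2
          (k₃ + ⟨_, hc3 ℓ⟩ : φ₃.ker).2)]
      congr 1
      apply Subtype.ext
      show pt φ₁ σ₂ σ₃ x ℓ k₂ k₃ + (u, v) = _
      unfold pt
      rw [Prod.mk_add_mk]
      refine Prod.ext ?_ ?_
      · show σ₂ ℓ + k₂ - x + u = σ₂ (ℓ + φ₂ u) + (k₂ + (σ₂ ℓ + u - σ₂ (ℓ + φ₂ u))) - x
        abel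
      · show σ₃ (-φ₁ x - ℓ) + k₃ - x + v = σ₃ (-φ₁ x - (ℓ + φ₂ u)) +
          (k₃ + (σ₃ (-φ₁ x - ℓ) + v - σ₃ (-φ₁ x - (ℓ + φ₂ u)))) - x
        abel
    simp only [e]
    refine Eq.trans ?_ (ML.shift (fun ℓ => M₂.m (fun k₂ => M₃.m (fun k₃ =>
      ext φ₂ φ₃ f (pt φ₁ σ₂ σ₃ x ℓ k₂ k₃))))
      ⟨|C|, fun ℓ => M₂.abs_le' (fun k₂ => M₃.abs_le' (fun k₃ => b1 _))⟩ ⟨φ₂ u, hu⟩)
    congr 1
    funext ℓ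
    refine Eq.trans ?_ (M₂.shift (fun k₂ => M₃.m (fun k₃ =>
      ext φ₂ φ₃ f (pt φ₁ σ₂ σ₃ x ((ℓ + ⟨φ₂ u, hu⟩ : LL φ₂ φ₃) : G) k₂ k₃)))
      ⟨|C|, fun k₂ => M₃.abs_le' (fun k₃ => b1 _)⟩ ⟨_, hc2 ℓ⟩)
    congr 1
    funext k₂
    exact M₃.shift (fun k₃ => ext φ₂ φ₃ f (pt φ₁ σ₂ σ₃ x ((ℓ + ⟨φ₂ u, hu⟩ : LL φ₂ φ₃) : G)
      ((k₂ + ⟨_, hc2 ℓ⟩ : φ₂.ker) : G) (k₃ : G))) ⟨|C|, fun k₃ => b1 _⟩ ⟨_, hc3 ℓ⟩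

/-- the correlation with parameters -/
noncomputable def DD (M : Mean G) (φ₁ : G →+ G) (σ₂ σ₃ : G → G) (A : Set G) (x ℓ k₂ k₃ : G) : ℝ :=
  M.m (fun a => ind A (a + x) * ind A (a + (σ₂ ℓ + k₂)) * ind A (a + (σ₃ (-φ₁ x - ℓ) + k₃)))

lemma DD_abs (M : Mean G) (φ₁ : G →+ G) (σ₂ σ₃ : G → G) (A : Set G) (x ℓ k₂ k₃ : G) :
    |DD M φ₁ σ₂ σ₃ A x ℓ k₂ k₃| ≤ 1 := M.abs_le' (fun a => tri_abs _ _ _ _)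

/-- positivity of the nested mean -/
theorem nested_pos (δ c : ℝ) (hc : ∀ (G N : Type u) [AddCommGroup G] [AddCommGroup N] (M : Mean G)
      (Q : Mean N) (p q : N →+ G) (A : Set G), δ ≤ M.m (ind A) → c ≤ Q.m (corr M p q A))
    (hsum : ∀ x, φ₁ x + φ₂ x + φ₃ x = 0) (h₂ : ∀ ℓ ∈ φ₂.range, φ₂ (σ₂ ℓ) = ℓ)
    (h₃ : ∀ ℓ ∈ φ₃.range, φ₃ (σ₃ ℓ) = ℓ) {x : G} (hx : φ₁ x ∈ LL φ₂ φ₃)
    (M : Mean G) (ML : Mean (LL φ₂ φ₃)) (M₂ : Mean φ₂.ker) (M₃ : Mean φ₃.ker)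
    (A : Set G) (hA : δ ≤ M.m (ind A)) :
    c ≤ ML.m (fun ℓ => M₂.m (fun k₂ => M₃.m (fun k₃ => DD M φ₁ σ₂ σ₃ A x ℓ k₂ k₃))) := by
  have h := hc G (NN φ₂ φ₃) M (QQ hsum h₂ h₃ hx ML M₂ M₃)
    ((AddMonoidHom.fst G G).comp (NN φ₂ φ₃).subtype) ((AddMonoidHom.snd G G).comp (NN φ₂ φ₃).subtype) A hA
  refine h.trans (le_of_eq ?_)
  show ML.m (fun ℓ => M₂.m (fun k₂ => M₃.m (fun k₃ => ext φ₂ φ₃ _ (pt φ₁ σ₂ σ₃ x ℓ k₂ k₃)))) = _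
  congr 1
  funext ℓ
  congr 1
  funext k₂
  congr 1
  funext k₃
  rw [ext_mem φ₂ φ₃ _ (pt_mem hsum h₂ h₃ hx ℓ.2 k₂.2 k₃.2)]
  unfold corr DD
  have hs := M.shift (fun a => ind A a * ind A (a + (σ₂ ℓ + k₂ - x)) * ind A (a + (σ₃ (-φ₁ x - ℓ) + k₃ - x)))
    (tri_bdd A (fun a => a) _ _) x
  refine Eq.trans ?_ (hs.symm.trans ?_)
  · rfl
  · congr 1
    funext a
    have e1 : a + x + (σ₂ ℓ + k₂ - x) = a + (σ₂ ℓ + k₂) := by abel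
    have e2 : a + x + (σ₃ (-φ₁ x - ℓ) + k₃ - x) = a + (σ₃ (-φ₁ x - ℓ) + k₃) := by abel
    rw [e1, e2]

end Param

end Pool.Agent.D0H46.CX
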