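import Pool.Agent.D0H46.CX.C

/-!
The finite step and the assembly for a mean (for MP_cc4361_co, Q1).
-/

set_option autoImplicit false
set_option linter.unusedVariables false
set_option linter.unusedSectionVars false

namespace Pool.Agent.D0H46.CX

open Pool.Agent.R3.CB

universe u

variable {G : Type u} [AddCommGroup G]

/-- the sumset `φ₁(A) + φ₂(A) + φ₃(A)` -/
def S3 (φ₁ φ₂ φ₃ : G →+ G) (A : Set G) : Set G :=
  {x | ∃ a ∈ A, ∃ b ∈ A, ∃ c ∈ A, x = φ₁ a + φ₂ b + φ₃ c}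

lemma E_congr (w : G →₀ ℝ) {f g : G → ℝ} (h : ∀ x ∈ w.support, f x = g x) : E w f = E w g := by
  rw [E_eq, E_eq]
  exact Finset.sum_congr rfl (fun x hx => by rw [h x hx])

lemma E_mono' {w : G →₀ ℝ} (hw : IsWin w) {f g : G → ℝ} (h : ∀ x ∈ w.support, f x ≤ g x) : E w f ≤ E w g := by
  rw [E_eq, E_eq]
  exact Finset.sum_le_sum (fun x hx => mul_le_mul_of_nonneg_left (h x hx) (hw.1 x))

lemma E_const_le {w : G →₀ ℝ} (hw : IsWin w) {f : G → ℝ} {c : ℝ} (h : ∀ x ∈ w.support, c ≤ f x) : c ≤ E w f := by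
  rw [← E_const hw c]
  exact E_mono' hw h

lemma E_nonneg {w : G →₀ ℝ} (hw : IsWin w) {f : G → ℝ} (h : ∀ x, 0 ≤ f x) : 0 ≤ E w f := by
  rw [← E_const hw 0]
  exact E_mono hw.1 h

lemma E_le_one' {w : G →₀ ℝ} (hw : IsWin w) {f : G → ℝ} (h : ∀ x, f x ≤ 1) : E w f ≤ 1 := by
  rw [← E_const hw 1]
  exact E_mono hw.1 h

lemma E_pos {w : G →₀ ℝ} {f : G → ℝ} (h : E w f ≠ 0) : ∃ x ∈ w.support, f x ≠ 0 := by
  by_contra hcon
  push Not at hcon
  apply h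
  rw [E_eq]
  exact Finset.sum_eq_zero (fun x hx => by rw [hcon x hx, mul_zero])

lemma ind_ne {α : Type*} {B : Set α} {x : α} (h : ind B x ≠ 0) : x ∈ B := by
  by_contra hx
  exact h (ind_of_not_mem hx)

theorem finite_step3 (c : ℝ) (hcpos : 0 < c) (φ₁ φ₂ φ₃ : G →+ G) (δ : ℝ)
    (hc : ∀ (G N : Type u) [AddCommGroup G] [AddCommGroup N] (M : Mean G)
      (Q : Mean N) (p q : N →+ G) (A : Set G), δ ≤ M.m (ind A) → c ≤ Q.m (corr M p q A))
    (hsum : ∀ x, φ₁ x + φ₂ x + φ₃ x = 0) (M : Mean G) (A : Set G) (hA : δ ≤ M.m (ind A))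
    (F : Finset G) (hF1 : ∀ t ∈ F, t ∈ φ₁.range ⊓ LL φ₂ φ₃) (hF2 : ∀ t ∈ F, t ∉ S3 φ₁ φ₂ φ₃ A) :
    ∃ T : Finset (AddChar G Circle), (T.card : ℝ) * (c / 2) ^ 2 ≤ 128 ∧
      ∀ t ∈ F, ∃ χ ∈ T, (c / 2) / 8 ≤ ‖((χ t : Circle) : ℂ) - 1‖ := by
  classical
  -- sections
  have hσ₂ : ∀ ℓ : G, ∃ z : G, ℓ ∈ φ₂.range → φ₂ z = ℓ := by
    intro ℓ
    by_cases h : ℓ ∈ φ₂.range
    · obtain ⟨z, hz⟩ := h
      exact ⟨z, fun _ => hz⟩
    · exact ⟨0, fun h' => absurd h' h⟩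
  choose σ₂ h₂ using hσ₂
  have hσ₃ : ∀ ℓ : G, ∃ z : G, ℓ ∈ φ₃.range → φ₃ z = ℓ := by
    intro ℓ
    by_cases h : ℓ ∈ φ₃.range
    · obtain ⟨z, hz⟩ := h
      exact ⟨z, fun _ => hz⟩
    · exact ⟨0, fun h' => absurd h' h⟩
  choose σ₃ h₃ using hσ₃
  have hz : ∀ t : G, ∃ z : G, t ∈ F → φ₁ z = t := by
    intro t
    by_cases h : t ∈ F
    · obtain ⟨z, hz⟩ := (hF1 t h).1
      exact ⟨z, fun _ => hz⟩
    · exact ⟨0, fun h' => absurd h' h⟩
  choose z hz using hz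
  obtain ⟨IL⟩ := exists_invMean (LL φ₂ φ₃)
  obtain ⟨I₂⟩ := exists_invMean φ₂.ker
  obtain ⟨I₃⟩ := exists_invMean φ₃.ker
  obtain ⟨IG⟩ := exists_invMean ((LL φ₂ φ₃).comap φ₁)
  set κ : ℝ := c / 2 with hκ
  have hκpos : 0 < κ := by positivity
  set ε : ℝ := c / 16 with hε
  have hεpos : 0 < ε := by positivity
  -- the window for `x`
  obtain ⟨w, hw, hwG, hwn, -⟩ := sub_win ((LL φ₂ φ₃).comap φ₁) IG (F.image z) (by
      intro s hs
      obtain ⟨t, ht, rfl⟩ := Finset.mem_image.1 hs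
      rw [AddSubgroup.mem_comap, hz t ht]
      exact (hF1 t ht).2) ∅ (by simp) (κ ^ 3 / 2048) (by positivity)
  have hwL : ∀ x ∈ w.support, φ₁ x ∈ LL φ₂ φ₃ := fun x hx => hwG x hx
  -- positivity
  have hpos : ∀ x ∈ w.support, c ≤ IL.m (fun ℓ => I₂.m (fun k₂ => I₃.m (fun k₃ => DD M φ₁ σ₂ σ₃ A x ℓ k₂ k₃))) :=
    fun x hx => nested_pos δ c hc hsum h₂ h₃ (hwL x hx) M (ofInv IL) (ofInv I₂) (ofInv I₃) A hA
  have hDb : ∀ x ℓ k₂ k₃ : G, |DD M φ₁ σ₂ σ₃ A x ℓ k₂ k₃| ≤ 1 := fun x ℓ k₂ k₃ => DD_abs M φ₁ σ₂ σ₃ A x ℓ k₂ k₃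
  -- the window on `L`
  let f1 : G → G → ℝ := fun x ℓ => I₂.m (fun k₂ => I₃.m (fun k₃ => DD M φ₁ σ₂ σ₃ A x ℓ k₂ k₃))
  have hf1 : ∀ x ℓ, |f1 x ℓ| ≤ 1 := fun x ℓ =>
    (ofInv I₂).abs_le' (fun k₂ => (ofInv I₃).abs_le' (fun k₃ => hDb _ _ _ _))
  obtain ⟨lam, hlam, hlamL, hlamn, hlama⟩ := sub_win (LL φ₂ φ₃) IL (w.support.image φ₁) (by
      intro s hs
      obtain ⟨x, hx, rfl⟩ := Finset.mem_image.1 hs
      exact hwL x hx) (w.support.image f1) (by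
      intro f hf
      obtain ⟨x, hx, rfl⟩ := Finset.mem_image.1 hf
      exact ⟨1, hf1 x⟩) ε hεpos
  -- the windows on the kernels
  let f2 : G → G → G → ℝ := fun x ℓ k₂ => I₃.m (fun k₃ => DD M φ₁ σ₂ σ₃ A x ℓ k₂ k₃)
  have hf2 : ∀ x ℓ k₂, |f2 x ℓ k₂| ≤ 1 := fun x ℓ k₂ => (ofInv I₃).abs_le' (fun k₃ => hDb _ _ _ _)
  obtain ⟨v₂, hv₂, hv₂K, -, hv₂a⟩ := sub_win φ₂.ker I₂ ∅ (by simp)
    ((w.support ×ˢ lam.support).image (fun p => f2 p.1 p.2)) (by
      intro f hf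
      obtain ⟨p, _, rfl⟩ := Finset.mem_image.1 hf
      exact ⟨1, hf2 _ _⟩) ε hεpos
  obtain ⟨v₃, hv₃, hv₃K, -, hv₃a⟩ := sub_win φ₃.ker I₃ ∅ (by simp)
    ((w.support ×ˢ (lam.support ×ˢ v₂.support)).image (fun p => DD M φ₁ σ₂ σ₃ A p.1 p.2.1 p.2.2)) (by
      intro f hf
      obtain ⟨p, _, rfl⟩ := Finset.mem_image.1 hf
      exact ⟨1, fun k₃ => hDb _ _ _ _⟩) ε hεpos
  -- lower bound for the nested windows
  have hlow : c - 3 * ε ≤ E w (fun x => E lam (fun ℓ => E v₂ (fun k₂ => E v₃ (fun k₃ =>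
      DD M φ₁ σ₂ σ₃ A x ℓ k₂ k₃)))) := by
    refine E_const_le hw (fun x hx => ?_)
    have g1 := (abs_le.1 (hlama (f1 x) (Finset.mem_image_of_mem f1 hx))).1
    have g2 : ∀ ℓ ∈ lam.support, f1 x ℓ - 2 * ε ≤ E v₂ (fun k₂ => E v₃ (fun k₃ =>
        DD M φ₁ σ₂ σ₃ A x ℓ k₂ k₃)) := by
      intro ℓ hℓ
      have g3 := (abs_le.1 (hv₂a (f2 x ℓ) (Finset.mem_image_of_mem (fun p : G × G => f2 p.1 p.2)
        (Finset.mk_mem_product hx hℓ)))).1
      have g4 : ∀ k₂ ∈ v₂.support, f2 x ℓ k₂ - ε ≤ E v₃ (fun k₃ => DD M φ₁ σ₂ σ₃ A x ℓ k₂ k₃) := by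
        intro k₂ hk₂
        have g5 := (abs_le.1 (hv₃a (DD M φ₁ σ₂ σ₃ A x ℓ k₂) (Finset.mem_image_of_mem
          (fun p : G × G × G => DD M φ₁ σ₂ σ₃ A p.1 p.2.1 p.2.2)
          (Finset.mk_mem_product hx (Finset.mk_mem_product hℓ hk₂))))).1
        have g6 : f2 x ℓ k₂ = I₃.m (fun k₃ => DD M φ₁ σ₂ σ₃ A x ℓ k₂ k₃) := rfl
        have g7 : E v₃ (DD M φ₁ σ₂ σ₃ A x ℓ k₂) = E v₃ (fun k₃ => DD M φ₁ σ₂ σ₃ A x ℓ k₂ k₃) := rfl
        rw [g6, ← g7]
        linarith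
      have g8 := E_mono' hv₂ g4
      rw [E_sub v₂ (fun k₂ => f2 x ℓ k₂) (fun _ => ε), E_const hv₂] at g8
      have g9 : f1 x ℓ = I₂.m (fun k₂ => f2 x ℓ k₂) := rfl
      rw [g9]
      linarith
    have g10 := E_mono' hlam g2
    rw [E_sub lam (fun ℓ => f1 x ℓ) (fun _ => 2 * ε), E_const hlam] at g10
    have g11 : c ≤ IL.m (fun ℓ => f1 x ℓ) := hpos x hx
    have g12 : E lam (f1 x) = E lam (fun ℓ => f1 x ℓ) := rfl
    have g13 : IL.m (fun h : LL φ₂ φ₃ => f1 x h) = IL.m (fun ℓ => f1 x ℓ) := rfl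
    linarith
  -- choice of the base point
  let T0 : G → ℝ := fun a => E w (fun x => E lam (fun ℓ => E v₂ (fun k₂ => E v₃ (fun k₃ =>
      ind A (a + x) * ind A (a + (σ₂ ℓ + k₂)) * ind A (a + (σ₃ (-φ₁ x - ℓ) + k₃))))))
  have hT0b : Bdd T0 := ⟨1, fun a => E_le_one hw (fun x => E_le_one hlam (fun ℓ => E_le_one hv₂ (fun k₂ =>
    E_le_one hv₃ (fun k₃ => tri_abs _ _ _ _))))⟩
  have hT0m : M.m T0 = E w (fun x => E lam (fun ℓ => E v₂ (fun k₂ => E v₃ (fun k₃ =>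
      DD M φ₁ σ₂ σ₃ A x ℓ k₂ k₃)))) := by
    rw [mean_win M w _ (fun x => ⟨1, fun a => E_le_one hlam (fun ℓ => E_le_one hv₂ (fun k₂ =>
      E_le_one hv₃ (fun k₃ => tri_abs _ _ _ _)))⟩)]
    congr 1
    funext x
    rw [mean_win M lam _ (fun ℓ => ⟨1, fun a => E_le_one hv₂ (fun k₂ =>
      E_le_one hv₃ (fun k₃ => tri_abs _ _ _ _))⟩)]
    congr 1
    funext ℓ
    rw [mean_win M v₂ _ (fun k₂ => ⟨1, fun a => E_le_one hv₃ (fun k₃ => tri_abs _ _ _ _)⟩)]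
    congr 1
    funext k₂
    rw [mean_win M v₃ _ (fun k₃ => ⟨1, fun a => tri_abs _ _ _ _⟩)]
    rfl
  obtain ⟨a, ha⟩ : ∃ a, c - 4 * ε < T0 a := by
    by_contra hcon
    push Not at hcon
    have := M.le_const hT0b hcon
    rw [hT0m] at this
    linarith
  -- the local densities
  let F2 : G → ℝ := fun ℓ => E v₂ (fun k₂ => ind A (a + (σ₂ ℓ + k₂)))
  let F3 : G → ℝ := fun ℓ => E v₃ (fun k₃ => ind A (a + (σ₃ ℓ + k₃)))
  have hF20 : ∀ ℓ, 0 ≤ F2 ℓ := fun ℓ => E_nonneg hv₂ (fun k₂ => ind_nonneg _ _)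
  have hF30 : ∀ ℓ, 0 ≤ F3 ℓ := fun ℓ => E_nonneg hv₃ (fun k₃ => ind_nonneg _ _)
  have hF21 : ∀ ℓ, F2 ℓ ≤ 1 := fun ℓ => E_le_one' hv₂ (fun k₂ => ind_le_one _ _)
  have hF31 : ∀ ℓ, F3 ℓ ≤ 1 := fun ℓ => E_le_one' hv₃ (fun k₃ => ind_le_one _ _)
  have hT0 : T0 a = E w (fun x => ind A (a + x) * E lam (fun ℓ => F2 ℓ * F3 (-φ₁ x - ℓ))) := by
    show E w _ = _
    congr 1
    funext x
    rw [← E_smul]
    congr 1
    funext ℓ
    show E v₂ _ = ind A (a + x) * (E v₂ _ * F3 (-φ₁ x - ℓ))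
    rw [mul_comm (E v₂ _), ← mul_assoc, ← E_smul]
    congr 1
    funext k₂
    show E v₃ _ = ind A (a + x) * E v₃ _ * _
    rw [mul_right_comm, ← E_smul]
  have hlam0 : ∀ ℓ, 0 ≤ lam ℓ := hlam.1
  have hlam1 : ∑ ℓ ∈ lam.support, lam ℓ = 1 := by
    have := hlam.2
    rw [E_eq] at this
    simpa using this
  let f : G → ℝ := fun x => w x * ind A (a + x)
  have hf0 : ∀ x, 0 ≤ f x := fun x => mul_nonneg (hw.1 x) (ind_nonneg _ _)
  have hfw : ∀ x, |f x| ≤ w x := by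
    intro x
    rw [abs_of_nonneg (hf0 x)]
    exact mul_le_of_le_one_right (hw.1 x) (ind_le_one _ _)
  let g : G → ℝ := fun u => Real.sqrt (lam u) * F2 u
  let g' : G → ℝ := fun u => Real.sqrt (lam u) * F3 (-u)
  have sq_bd : ∀ (H : G → ℝ), (∀ u, 0 ≤ H u) → (∀ u, H u ≤ 1) →
      ∑ u ∈ lam.support, (Real.sqrt (lam u) * H u) ^ 2 ≤ 1 := by
    intro H hH0 hH1
    rw [← hlam1]
    refine Finset.sum_le_sum (fun u _ => ?_)
    rw [mul_pow, Real.sq_sqrt (hlam0 u)]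
    exact mul_le_of_le_one_right (hlam0 u) (pow_le_one₀ (hH0 u) (hH1 u))
  refine harm2b hw f hfw φ₁ lam.support g g' ?_ ?_ (sq_bd F2 hF20 hF21)
    (sq_bd (fun u => F3 (-u)) (fun u => hF30 _) (fun u => hF31 _)) κ hκpos ?_ ?_ F z hz ?_ ?_
  · intro u hu
    show Real.sqrt (lam u) * F2 u = 0
    rw [Finsupp.notMem_support_iff.1 hu]; simp
  · intro u hu
    show Real.sqrt (lam u) * F3 (-u) = 0
    rw [Finsupp.notMem_support_iff.1 hu]; simp
  · -- κ ≤ 1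
    have h1 : T0 a ≤ 1 := (abs_le.1 (E_le_one hw (fun x => E_le_one hlam (fun ℓ => E_le_one hv₂ (fun k₂ =>
      E_le_one hv₃ (fun k₃ => tri_abs _ _ _ _)))))).2
    rw [hκ]
    rw [hε] at ha
    linarith
  · -- lower bound at zero
    have hin : ∀ x ∈ w.support, E lam (fun ℓ => F2 ℓ * F3 (-φ₁ x - ℓ)) - ε ≤
        ∑ u ∈ lam.support, g u * g' (u + φ₁ x) := by
      intro x hx
      set s : G := φ₁ x with hs
      set lam' : G →₀ ℝ := lam.mapDomain (fun u => u - s) with hlam'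
      have hlam'u : ∀ u, lam' u = lam (u + s) := by
        intro u
        have h := Finsupp.mapDomain_apply (f := fun u : G => u - s) (fun a b h => by simpa using h) lam (u + s)
        rw [add_sub_cancel_right] at h
        exact h
      have hnear := hlamn s (Finset.mem_image_of_mem φ₁ hx)
      have hl1 : ∑ u ∈ lam.support, |lam u - lam' u| ≤ ε := by
        apply l1_near
        intro f hf
        rw [hlam', E_map]
        have := hnear (fun y => f (y - s)) (fun y => hf _)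
        have e : (fun y => f (y + s - s)) = f := by
          funext y
          rw [add_sub_cancel_right]
        rw [e] at this
        exact this
      have hterm : ∀ u ∈ lam.support, lam u * (F2 u * F3 (-s - u)) - |lam u - lam' u| ≤ g u * g' (u + s) := by
        intro u _
        rw [hlam'u]
        have hmin : min (lam u) (lam (u + s)) ≤ Real.sqrt (lam u) * Real.sqrt (lam (u + s)) := by
          rw [← Real.sqrt_mul (hlam0 u)]
          apply Real.le_sqrt_of_sq_le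
          rcases le_total (lam u) (lam (u + s)) with h | h
          · rw [min_eq_left h]; nlinarith [hlam0 u]
          · rw [min_eq_right h]; nlinarith [hlam0 (u + s)]
        have hmin2 : lam u - |lam u - lam (u + s)| ≤ min (lam u) (lam (u + s)) := by
          rcases le_total (lam u) (lam (u + s)) with h | h
          · rw [min_eq_left h]; linarith [abs_nonneg (lam u - lam (u + s))]
          · rw [min_eq_right h, abs_of_nonneg (by linarith)]; linarith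
        have e1 : -(u + s) = -s - u := by abel
        have hh0 : 0 ≤ F2 u * F3 (-s - u) := mul_nonneg (hF20 _) (hF30 _)
        have hh1 : F2 u * F3 (-s - u) ≤ 1 := mul_le_one₀ (hF21 _) (hF30 _) (hF31 _)
        have hab := abs_nonneg (lam u - lam (u + s))
        calc lam u * (F2 u * F3 (-s - u)) - |lam u - lam (u + s)|
            ≤ (lam u - |lam u - lam (u + s)|) * (F2 u * F3 (-s - u)) := by nlinarith
          _ ≤ (Real.sqrt (lam u) * Real.sqrt (lam (u + s))) * (F2 u * F3 (-s - u)) :=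
              mul_le_mul_of_nonneg_right (hmin2.trans hmin) hh0
          _ = g u * g' (u + s) := by
              show _ = (Real.sqrt (lam u) * F2 u) * (Real.sqrt (lam (u + s)) * F3 (-(u + s)))
              rw [e1]; ring
      have hsum' := Finset.sum_le_sum hterm
      rw [Finset.sum_sub_distrib] at hsum'
      rw [E_eq]
      linarith
    have h1 : T0 a - ε ≤ ∑ y ∈ w.support, f y * ∑ u ∈ lam.support, g u * g' (u + φ₁ y) := by
      rw [hT0, E_eq]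
      have e1 : ∑ y ∈ w.support, w y = 1 := by
        have := hw.2
        rw [E_eq] at this
        simpa using this
      have e2 : ∑ x ∈ w.support, w x * (ind A (a + x) * E lam (fun ℓ => F2 ℓ * F3 (-φ₁ x - ℓ))) - ε =
          ∑ x ∈ w.support, (w x * (ind A (a + x) * E lam (fun ℓ => F2 ℓ * F3 (-φ₁ x - ℓ))) - ε * w x) := by
        rw [Finset.sum_sub_distrib, ← Finset.mul_sum, e1, mul_one]
      rw [e2]
      refine Finset.sum_le_sum (fun x hx => ?_)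
      show _ ≤ w x * ind A (a + x) * _
      have h2 := hin x hx
      have h3 := hw.1 x
      have h4 := ind_nonneg A (a + x)
      have h5 := ind_le_one A (a + x)
      have h6 : w x * ind A (a + x) * (E lam (fun ℓ => F2 ℓ * F3 (-φ₁ x - ℓ)) - ε) ≤
          w x * ind A (a + x) * ∑ u ∈ lam.support, g u * g' (u + φ₁ x) :=
        mul_le_mul_of_nonneg_left h2 (mul_nonneg h3 h4)
      refine le_trans ?_ h6
      have h7 : w x * ind A (a + x) * ε ≤ w x * ε := by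
        apply mul_le_mul_of_nonneg_right _ hεpos.le
        exact mul_le_of_le_one_right h3 h5
      nlinarith
    rw [hκ]
    rw [hε] at ha h1
    linarith
  · intro t ht
    exact hwn (z t) (Finset.mem_image_of_mem z ht)
  · intro t ht
    apply Finset.sum_eq_zero
    intro x hx
    by_cases hxA : a + x ∈ A
    · have : ∑ u ∈ lam.support, g u * g' (u + φ₁ x - t) = 0 := by
        apply Finset.sum_eq_zero
        intro u hu
        by_contra hne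
        have hne1 : F2 u ≠ 0 := by
          intro h
          apply hne
          show Real.sqrt (lam u) * F2 u * _ = 0
          rw [h]; ring
        have hne2 : F3 (-(u + φ₁ x - t)) ≠ 0 := by
          intro h
          apply hne
          show _ * (Real.sqrt (lam (u + φ₁ x - t)) * F3 (-(u + φ₁ x - t))) = 0
          rw [h]; ring
        obtain ⟨k₂, hk₂, hb⟩ := E_pos hne1
        obtain ⟨k₃, hk₃, hd⟩ := E_pos hne2
        have hb' := ind_ne hb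
        have hd' := ind_ne hd
        apply hF2 t ht
        refine ⟨_, hxA, _, hb', _, hd', ?_⟩
        have huL := hlamL u hu
        have m1 : -(u + φ₁ x - t) ∈ φ₃.range :=
          neg_mem (sub_mem (add_mem huL.2 (hwL x hx).2) (hF1 t ht).2.2)
        have m2 := hv₂K k₂ hk₂
        have m3 := hv₃K k₃ hk₃
        rw [AddMonoidHom.mem_ker] at m2 m3
        have e0 := hsum a
        simp only [map_add]
        rw [h₂ u huL.1, h₃ _ m1, m2, m3]
        have : φ₁ a + φ₁ x + (φ₂ a + (u + 0)) + (φ₃ a + (-(u + φ₁ x - t) + 0)) =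
            (φ₁ a + φ₂ a + φ₃ a) + t := by abel
        rw [this, e0, zero_add]
      rw [this, mul_zero]
    · show w x * ind A (a + x) * _ = 0
      rw [ind_of_not_mem hxA]; ring

/-- the theorem for a mean -/
theorem main3 (δ : ℝ) (hδ : 0 < δ) (K : ℕ) : ∃ (k : ℕ) (η : ℝ), 0 < η ∧
    ∀ (G : Type u) [AddCommGroup G] (φ₁ φ₂ φ₃ : G →+ G), (∀ x, φ₁ x + φ₂ x + φ₃ x = 0) →
      φ₁.range.index ≠ 0 → φ₁.range.index ≤ K → φ₂.range.index ≠ 0 → φ₂.range.index ≤ K →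
      φ₃.range.index ≠ 0 → φ₃.range.index ≤ K →
      ∀ (M : Mean G) (A : Set G), δ ≤ M.m (ind A) → ∃ χ : Fin k → AddChar G Circle,
        ∀ g, (∀ j, ‖((χ j g : Circle) : ℂ) - 1‖ < η) → g ∈ S3 φ₁ φ₂ φ₃ A := by
  classical
  obtain ⟨c, hc, hcor⟩ := corner_mean.{u, u} δ hδ
  obtain ⟨η₁, hη₁, hstat⟩ := static_chars (K * (K * K))
  obtain ⟨k', hk'⟩ := exists_nat_ge (128 / (c / 2) ^ 2)
  refine ⟨K * (K * K) + k', min η₁ (c / 2 / 8), lt_min hη₁ (by positivity), ?_⟩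
  intro G _ φ₁ φ₂ φ₃ hsum h1 h1K h2 h2K h3 h3K M A hA
  have hidx : (φ₁.range ⊓ LL φ₂ φ₃).index ≠ 0 ∧ (φ₁.range ⊓ LL φ₂ φ₃).index ≤ K * (K * K) := by
    have e1 : (LL φ₂ φ₃).index ≠ 0 := AddSubgroup.index_inf_ne_zero h2 h3
    have e2 : (LL φ₂ φ₃).index ≤ K * K := (AddSubgroup.index_inf_le (H := φ₂.range) (K := φ₃.range)).trans
      (Nat.mul_le_mul h2K h3K)
    exact ⟨AddSubgroup.index_inf_ne_zero h1 e1, (AddSubgroup.index_inf_le (H := φ₁.range) (K := LL φ₂ φ₃)).trans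
      (Nat.mul_le_mul h1K e2)⟩
  obtain ⟨χs, hχs⟩ := hstat G (φ₁.range ⊓ LL φ₂ φ₃) hidx.1 hidx.2
  obtain ⟨χd, hχd⟩ := limit_chars (G := G) k' (c / 2 / 8)
    {t | t ∈ φ₁.range ⊓ LL φ₂ φ₃ ∧ t ∉ S3 φ₁ φ₂ φ₃ A} (by
    intro F hF
    obtain ⟨T, hT1, hT2⟩ := finite_step3 c hc φ₁ φ₂ φ₃ δ (fun G N _ _ M Q p q A h => hcor G N M Q p q A h)
      hsum M A hA F (fun t ht => (hF t ht).1) (fun t ht => (hF t ht).2)
    have hcard : T.card ≤ k' := by
      have h3 : (T.card : ℝ) ≤ 128 / (c / 2) ^ 2 := by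
        rw [le_div_iff₀ (by positivity)]; exact hT1
      exact_mod_cast h3.trans hk'
    have : Inhabited (AddChar G Circle) := ⟨0⟩
    obtain ⟨χ, hχ⟩ := fill T k' hcard
    refine ⟨χ, fun t ht => ?_⟩
    obtain ⟨ψ, hψ, hψt⟩ := hT2 t ht
    obtain ⟨j, hj⟩ := hχ ψ hψ
    exact ⟨j, by rw [hj]; exact hψt⟩)
  refine ⟨Fin.append χs χd, ?_⟩
  intro g hg
  have hgH : g ∈ φ₁.range ⊓ LL φ₂ φ₃ := by
    apply hχs
    intro j
    have := hg (Fin.castAdd k' j)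
    rw [Fin.append_left] at this
    exact lt_of_lt_of_le this (min_le_left _ _)
  by_contra hgX
  obtain ⟨j, hj⟩ := hχd g ⟨hgH, hgX⟩
  have := hg (Fin.natAdd (K * (K * K)) j)
  rw [Fin.append_right] at this
  have h3 := lt_of_lt_of_le this (min_le_right _ _)
  linarith

end Pool.Agent.D0H46.CX
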