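import Pool.Agent.D0H46.CX.D

/-!
Upper Banach density and invariant means (for MP_cc4361_co, Q1).
-/

set_option autoImplicit false
set_option linter.unusedVariables false
set_option linter.unusedSectionVars false

namespace Pool.Agent.D0H46.CX

open Pool.Agent.R3.CB Filter Topology

universe u

variable {G : Type u} [AddCommGroup G]

open Classical in
/-- A Følner sequence of `G`: nonempty finite sets `F N` with `|F N ∆ (g + F N)| / |F N| → 0` for every `g`. -/
def IsFolner (F : ℕ → Finset G) : Prop :=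
  (∀ N, (F N).Nonempty) ∧
    ∀ g : G, Tendsto (fun N => ((symmDiff (F N) ((F N).image (fun x => g + x))).card : ℝ) / (F N).card)
      atTop (𝓝 0)

open Classical in
/-- The upper Banach density: the supremum of `limsup |A ∩ F N| / |F N|` over the Følner sequences. -/
noncomputable def upperBanachDensity (A : Set G) : ℝ :=
  sSup {d : ℝ | ∃ F : ℕ → Finset G, IsFolner F ∧
    d = limsup (fun N => (((F N).filter (fun x => x ∈ A)).card : ℝ) / (F N).card) atTop}

open Classical in
lemma shift_bound (F : Finset G) (s : G) (f : G → ℝ) {C : ℝ} (hC : ∀ x, |f x| ≤ C) :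
    |∑ x ∈ F, f (x + s) - ∑ x ∈ F, f x| ≤ C * (symmDiff F (F.image (fun x => s + x))).card := by
  have e1 : ∑ x ∈ F, f (x + s) = ∑ y ∈ F.image (fun x => s + x), f y := by
    rw [Finset.sum_image (fun a _ b _ h => by simpa using h)]
    exact Finset.sum_congr rfl (fun x _ => by rw [add_comm])
  set F' := F.image (fun x => s + x) with hF'
  have e2 := Finset.sum_inter_add_sum_sdiff F' F f
  have e3 := Finset.sum_inter_add_sum_sdiff F F' f
  have hd : Disjoint (F \ F') (F' \ F) := by
    rw [Finset.disjoint_left]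
    intro x h1 h2
    exact (Finset.mem_sdiff.1 h1).2 (Finset.mem_sdiff.1 h2).1
  have e4 : (symmDiff F F').card = (F \ F').card + (F' \ F).card := by
    have : symmDiff F F' = (F \ F') ∪ (F' \ F) := rfl
    rw [this, Finset.card_union_of_disjoint hd]
  have b1 : |∑ x ∈ F' \ F, f x| ≤ C * (F' \ F).card := by
    refine (Finset.abs_sum_le_sum_abs _ _).trans ((Finset.sum_le_sum (fun x _ => hC x)).trans ?_)
    rw [Finset.sum_const, nsmul_eq_mul, mul_comm]
  have b2 : |∑ x ∈ F \ F', f x| ≤ C * (F \ F').card := by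
    refine (Finset.abs_sum_le_sum_abs _ _).trans ((Finset.sum_le_sum (fun x _ => hC x)).trans ?_)
    rw [Finset.sum_const, nsmul_eq_mul, mul_comm]
  rw [e1, ← e2, ← e3, Finset.inter_comm F' F, e4]
  have e5 : ∑ x ∈ F ∩ F', f x + ∑ x ∈ F' \ F, f x - (∑ x ∈ F ∩ F', f x + ∑ x ∈ F \ F', f x) =
      ∑ x ∈ F' \ F, f x - ∑ x ∈ F \ F', f x := by ring
  rw [e5]
  push_cast
  have := abs_sub (∑ x ∈ F' \ F, f x) (∑ x ∈ F \ F', f x)
  linarith

/-- average over a finite set -/
noncomputable def av (F : Finset G) (f : G → ℝ) : ℝ := (∑ x ∈ F, f x) / F.card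

lemma av_abs {F : Finset G} (hF : F.Nonempty) (f : G → ℝ) {C : ℝ} (hC : ∀ x, |f x| ≤ C) : |av F f| ≤ C := by
  have h : (0 : ℝ) < F.card := by exact_mod_cast hF.card_pos
  unfold av
  rw [abs_div, abs_of_pos h, div_le_iff₀ h]
  refine (Finset.abs_sum_le_sum_abs _ _).trans ((Finset.sum_le_sum (fun x _ => hC x)).trans ?_)
  rw [Finset.sum_const, nsmul_eq_mul, mul_comm]

theorem exists_mean (A : Set G) (δ : ℝ) (F : ℕ → Finset G) (hF : IsFolner F)
    (h : ∃ᶠ N in atTop, δ ≤ av (F N) (ind A)) : ∃ M : Mean G, δ ≤ M.m (ind A) := by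
  classical
  rw [frequently_iff_neBot] at h
  let U : Ultrafilter ℕ := Ultrafilter.of (atTop ⊓ 𝓟 {N | δ ≤ av (F N) (ind A)})
  have hU0 : (U : Filter ℕ) ≤ atTop ⊓ 𝓟 {N | δ ≤ av (F N) (ind A)} := Ultrafilter.of_le _
  have hU : (U : Filter ℕ) ≤ atTop := hU0.trans inf_le_left
  have hUA : ∀ᶠ N in (U : Filter ℕ), δ ≤ av (F N) (ind A) := by
    have : {N | δ ≤ av (F N) (ind A)} ∈ 𝓟 {N | δ ≤ av (F N) (ind A)} := mem_principal_self _
    exact (hU0.trans inf_le_right) this
  have hlim : ∀ f : G → ℝ, Bdd f → ∃ a, Tendsto (fun N => av (F N) f) U (𝓝 a) := by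
    intro f hf
    obtain ⟨C, hC⟩ := hf
    have hc : IsCompact (Set.Icc (-C) C) := isCompact_Icc
    have hmem : ∀ N, av (F N) f ∈ Set.Icc (-C) C := fun N => abs_le.1 (av_abs (hF.1 N) f hC)
    have := hc.ultrafilter_le_nhds (U.map (fun N => av (F N) f)) (by
      rw [le_principal_iff]
      change _ ∈ Filter.map _ _
      rw [mem_map]
      exact Filter.Eventually.of_forall hmem)
    obtain ⟨a, _, ha⟩ := this
    exact ⟨a, ha⟩
  let m : (G → ℝ) → ℝ := fun f => limUnder (U : Filter ℕ) (fun N => av (F N) f)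
  have hm : ∀ f, Bdd f → Tendsto (fun N => av (F N) f) U (𝓝 (m f)) := fun f hf =>
    tendsto_nhds_limUnder (hlim f hf)
  refine ⟨⟨m, ?_, ?_, ?_, ?_, ?_⟩, ?_⟩
  · intro f g hf hg
    refine tendsto_nhds_unique (hm _ (hf.add hg)) ?_
    refine ((hm f hf).add (hm g hg)).congr (fun N => ?_)
    unfold av
    rw [Finset.sum_add_distrib, add_div]
  · intro c f hf
    refine tendsto_nhds_unique (hm _ (hf.smul c)) ?_
    refine ((hm f hf).const_mul c).congr (fun N => ?_)
    unfold av
    rw [← Finset.mul_sum, mul_div_assoc]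
  · intro f g hf hg hfg
    refine le_of_tendsto_of_tendsto (hm f hf) (hm g hg) (Filter.Eventually.of_forall (fun N => ?_))
    unfold av
    exact div_le_div_of_nonneg_right (Finset.sum_le_sum (fun x _ => hfg x)) (Nat.cast_nonneg _)
  · intro c
    refine tendsto_nhds_unique (hm _ (Bdd.const c)) ?_
    refine tendsto_const_nhds.congr (fun N => ?_)
    have h : ((F N).card : ℝ) ≠ 0 := by exact_mod_cast (hF.1 N).card_pos.ne'
    unfold av
    rw [Finset.sum_const, nsmul_eq_mul]
    field_simp
  · intro f hf s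
    refine tendsto_nhds_unique (hm _ (hf.comp (fun x => x + s))) ?_
    obtain ⟨C, hC⟩ := hf
    have hf : Bdd f := ⟨C, hC⟩
    have key : Tendsto (fun N => av (F N) (fun x => f (x + s)) - av (F N) f) U (𝓝 0) := by
      have h1 : Tendsto (fun N => C * (((symmDiff (F N) ((F N).image (fun x => s + x))).card : ℝ) / (F N).card))
          U (𝓝 0) := by
        have := (hF.2 s).const_mul C
        rw [mul_zero] at this
        exact this.mono_left hU
      refine squeeze_zero_norm (fun N => ?_) h1
      have hpos : (0 : ℝ) < (F N).card := by exact_mod_cast (hF.1 N).card_pos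
      unfold av
      rw [← sub_div, Real.norm_eq_abs, abs_div, abs_of_pos hpos, ← mul_div_assoc]
      exact div_le_div_of_nonneg_right (shift_bound (F N) s f hC) hpos.le
    have := key.add (hm f hf)
    simpa using this
  · exact ge_of_tendsto (hm _ (ind_bdd A)) hUA

theorem mean_of_density (A : Set G) (δ : ℝ) (hδ : 0 < δ) (hA : δ ≤ upperBanachDensity A) :
    ∃ M : Mean G, δ / 2 ≤ M.m (ind A) := by
  classical
  unfold upperBanachDensity at hA
  set D : Set ℝ := {d : ℝ | ∃ F : ℕ → Finset G, IsFolner F ∧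
    d = limsup (fun N => (((F N).filter (fun x => x ∈ A)).card : ℝ) / (F N).card) atTop} with hD
  have hne : D.Nonempty := by
    by_contra hcon
    rw [Set.not_nonempty_iff_eq_empty] at hcon
    rw [hcon, Real.sSup_empty] at hA
    linarith
  obtain ⟨d, ⟨F, hF, rfl⟩, hd⟩ := exists_lt_of_lt_csSup hne (show δ / 2 < sSup D by linarith)
  have hb : IsBoundedUnder (fun x1 x2 => x2 ≤ x1) atTop
      (fun N => (((F N).filter (fun x => x ∈ A)).card : ℝ) / (F N).card) :=
    isBoundedUnder_of ⟨0, fun N => by positivity⟩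
  have hfr := frequently_lt_of_lt_limsup hb.isCoboundedUnder_le hd
  refine exists_mean A (δ / 2) F hF (hfr.mono (fun N hN => ?_))
  have e : av (F N) (ind A) = (((F N).filter (fun x => x ∈ A)).card : ℝ) / (F N).card := by
    unfold av
    congr 1
    have : ∀ x, ind A x = if x ∈ A then 1 else 0 := by
      intro x
      by_cases hx : x ∈ A
      · rw [ind_of_mem hx, if_pos hx]
      · rw [ind_of_not_mem hx, if_neg hx]
    simp only [this]
    rw [Finset.sum_ite]
    simp
  rw [e]
  exact hN.le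

end Pool.Agent.D0H46.CX
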